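import Pool.Agent.N506.Dc
import Pool.Agent.Y477.IW.K1c

/-!
Continuity of `K₁` along directed colimits of rings (and homomorphisms of rings which preserve the
unit).
-/

set_option autoImplicit false

namespace Pool.Agent.N510.KC

open Pool.Agent.Y477.IW Pool.Agent.N506 Matrix

section

variable {J : Type} [Preorder J] [IsDirected J (· ≤ ·)] [Nonempty J] {A : J → Type}
  [∀ i, Ring (A i)] {s : ∀ i j, i ≤ j → (A i →ₙ+* A j)} {L : Type} [Ring L]
  {t : ∀ i, A i →ₙ+* L}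

/-- The ring `L` is the directed colimit of the rings `A i`. -/
structure RC (s : ∀ i j, i ≤ j → (A i →ₙ+* A j)) (t : ∀ i, A i →ₙ+* L) : Prop where
  dc : DC A (fun i j h => s i j h) L (fun i => t i)
  s1 : ∀ i j h, s i j h 1 = 1
  t1 : ∀ i, t i 1 = 1

omit [IsDirected J (· ≤ ·)] [Nonempty J] in
theorem RC.s_comp (h : RC s t) {i j k : J} (h1 : i ≤ j) (h2 : j ≤ k) :
    (s j k h2).comp (s i j h1) = s i k (h1.trans h2) :=
  NonUnitalRingHom.ext fun x => h.dc.ss i j k h1 h2 x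

omit [IsDirected J (· ≤ ·)] [Nonempty J] in
theorem RC.t_comp (h : RC s t) {i j : J} (h1 : i ≤ j) : (t j).comp (s i j h1) = t i :=
  NonUnitalRingHom.ext fun x => h.dc.ts i j h1 x

theorem mapR_one {R S : Type} [Ring R] [Ring S] (n : ℕ) (φ : R →ₙ+* S) (h : φ 1 = 1) :
    mapR (Fin n) φ 1 = 1 := by
  ext a b
  change φ ((1 : Matrix (Fin n) (Fin n) R) a b) = _
  rw [Matrix.one_apply, Matrix.one_apply]
  split_ifs
  · exact h
  · exact map_zero φ

theorem unzU_mapR {R S : Type} [Ring R] [Ring S] (n : ℕ) (φ : R →ₙ+* S) (h : φ 1 = 1)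
    (M : (Matrix (Fin n) (Fin n) R)ˣ) : (unzU (mapR (Fin n) φ) M).val = mapR (Fin n) φ M.val := by
  rw [unzU_val, mapR_one n φ h, sub_self, add_zero]

/-- Matrices. -/
theorem RC.mat (h : RC s t) (n : ℕ) :
    DC (fun i => Matrix (Fin n) (Fin n) (A i)) (fun i j hij M => mapR (Fin n) (s i j hij) M)
      (Matrix (Fin n) (Fin n) L) (fun i M => mapR (Fin n) (t i) M) :=
  (h.dc.tuple (Fin n)).tuple (Fin n)

/-- Invertible matrices come from a finite stage. -/
theorem RC.unit_surj (h : RC s t) (n : ℕ) (M : (Matrix (Fin n) (Fin n) L)ˣ) :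
    ∃ j, ∃ u : (Matrix (Fin n) (Fin n) (A j))ˣ, unzU (mapR (Fin n) (t j)) u = M := by
  obtain ⟨i, X, hX⟩ := (h.mat n).surj M.val
  obtain ⟨i', Y, hY⟩ := (h.mat n).surj (M⁻¹ : (Matrix (Fin n) (Fin n) L)ˣ).val
  obtain ⟨m, h1, h2⟩ := bound2 i i'
  set X' := mapR (Fin n) (s i m h1) X with hX'
  set Y' := mapR (Fin n) (s i' m h2) Y with hY'
  have eX : mapR (Fin n) (t m) X' = M.val := ((h.mat n).ts i m h1 X).trans hX
  have eY : mapR (Fin n) (t m) Y' = (M⁻¹ : (Matrix (Fin n) (Fin n) L)ˣ).val :=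
    ((h.mat n).ts i' m h2 Y).trans hY
  have e1 : mapR (Fin n) (t m) (X' * Y') = mapR (Fin n) (t m) 1 := by
    rw [map_mul, eX, eY, Units.mul_inv, mapR_one n _ (h.t1 m)]
  have e2 : mapR (Fin n) (t m) (Y' * X') = mapR (Fin n) (t m) 1 := by
    rw [map_mul, eX, eY, Units.inv_mul, mapR_one n _ (h.t1 m)]
  obtain ⟨k1, hk1, f1⟩ := (h.mat n).inj m _ _ e1
  obtain ⟨k2, hk2, f2⟩ := (h.mat n).inj m _ _ e2
  obtain ⟨k, g1, g2⟩ := bound2 k1 k2
  have f1' := (h.mat n).up hk1 g1 f1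
  have f2' := (h.mat n).up hk2 g2 f2
  have f1'' : mapR (Fin n) (s m k (hk1.trans g1)) (X' * Y') =
      mapR (Fin n) (s m k (hk1.trans g1)) 1 := f1'
  have f2'' : mapR (Fin n) (s m k (hk1.trans g1)) (Y' * X') =
      mapR (Fin n) (s m k (hk1.trans g1)) 1 := f2'
  rw [map_mul, mapR_one n _ (h.s1 _ _ _)] at f1'' f2''
  refine ⟨k, ⟨_, _, f1'', f2''⟩, ?_⟩
  apply Units.ext
  rw [unzU_mapR n _ (h.t1 k)]
  exact ((h.mat n).ts m k (hk1.trans g1) X').trans eX

/-- The lift of an invertible matrix to a finite stage is unique up to passing to a later stage. -/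
theorem RC.unit_inj (h : RC s t) (n : ℕ) {i j : J} (u : (Matrix (Fin n) (Fin n) (A i))ˣ)
    (v : (Matrix (Fin n) (Fin n) (A j))ˣ)
    (e : unzU (mapR (Fin n) (t i)) u = unzU (mapR (Fin n) (t j)) v) :
    ∃ k, ∃ (h1 : i ≤ k) (h2 : j ≤ k), unzU (mapR (Fin n) (s i k h1)) u =
      unzU (mapR (Fin n) (s j k h2)) v := by
  obtain ⟨m, h1, h2⟩ := bound2 i j
  have e' : mapR (Fin n) (t i) u.val = mapR (Fin n) (t j) v.val := by
    rw [← unzU_mapR n _ (h.t1 i), ← unzU_mapR n _ (h.t1 j), e]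
  have e1 : mapR (Fin n) (t m) (mapR (Fin n) (s i m h1) u.val) =
      mapR (Fin n) (t m) (mapR (Fin n) (s j m h2) v.val) :=
    ((h.mat n).ts i m h1 u.val).trans (e'.trans ((h.mat n).ts j m h2 v.val).symm)
  obtain ⟨k, hk, e2⟩ := (h.mat n).inj m _ _ e1
  refine ⟨k, h1.trans hk, h2.trans hk, ?_⟩
  apply Units.ext
  rw [unzU_mapR n _ (h.s1 _ _ _), unzU_mapR n _ (h.s1 _ _ _)]
  exact ((h.mat n).ss i m k h1 hk u.val).symm.trans (e2.trans ((h.mat n).ss j m k h2 hk v.val))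

/-- The families which vanish eventually. -/
def evz (A : J → Type) [∀ i, Ring (A i)] : AddSubgroup (∀ j, K1 (A j)) where
  carrier := {x | ∃ k, ∀ j, k ≤ j → x j = 0}
  zero_mem' := by
    obtain ⟨k⟩ := (inferInstance : Nonempty J)
    exact ⟨k, fun _ _ => rfl⟩
  add_mem' := by
    rintro x y ⟨k, hk⟩ ⟨l, hl⟩
    obtain ⟨m, h1, h2⟩ := bound2 k l
    exact ⟨m, fun j hj => by
      rw [Pi.add_apply, hk j (h1.trans hj), hl j (h2.trans hj), add_zero]⟩
  neg_mem' := by
    rintro x ⟨k, hk⟩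
    exact ⟨k, fun j hj => by rw [Pi.neg_apply, hk j hj, neg_zero]⟩

/-- The group of the germs of families. -/
abbrev Grm (A : J → Type) [∀ i, Ring (A i)] : Type := (∀ j, K1 (A j)) ⧸ evz A

open Classical in
/-- The family of the images of an element. -/
noncomputable def fam (s : ∀ i j, i ≤ j → (A i →ₙ+* A j)) (i : J) : K1 (A i) →+ ∀ j, K1 (A j) where
  toFun x j := if h : i ≤ j then K1.map (s i j h) x else 0
  map_zero' := by
    funext j
    by_cases h : i ≤ j
    · simp only [dif_pos h, map_zero, Pi.zero_apply]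
    · simp only [dif_neg h, Pi.zero_apply]
  map_add' x y := by
    funext j
    by_cases h : i ≤ j
    · simp only [dif_pos h, map_add, Pi.add_apply]
    · simp only [dif_neg h, Pi.add_apply, add_zero]

theorem fam_of (s : ∀ i j, i ≤ j → (A i →ₙ+* A j)) {i j : J} (h : i ≤ j) (x : K1 (A i)) :
    fam s i x j = K1.map (s i j h) x := by
  classical
  exact dif_pos h

/-- The germ of an element. -/
noncomputable def grm' (s : ∀ i j, i ≤ j → (A i →ₙ+* A j)) (i : J) : K1 (A i) →+ Grm A :=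
  (QuotientAddGroup.mk' (evz A)).comp (fam s i)

theorem grm_zero (s : ∀ i j, i ≤ j → (A i →ₙ+* A j)) {i : J} (x : K1 (A i))
    (h : grm' s i x = 0) : ∃ j, ∃ hij : i ≤ j, K1.map (s i j hij) x = 0 := by
  obtain ⟨k, hk⟩ := (QuotientAddGroup.eq_zero_iff _).mp h
  obtain ⟨m, h1, h2⟩ := bound2 i k
  refine ⟨m, h1, ?_⟩
  rw [← fam_of]
  exact hk m h2

theorem grm_map (h : RC s t) {i j : J} (hij : i ≤ j) (x : K1 (A i)) :
    grm' s j (K1.map (s i j hij) x) = grm' s i x := by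
  change (QuotientAddGroup.mk _ : Grm A) = QuotientAddGroup.mk _
  rw [QuotientAddGroup.eq]
  refine ⟨j, fun k hk => ?_⟩
  rw [Pi.add_apply, Pi.neg_apply, fam_of s hk, fam_of s (hij.trans hk), ← K1.map_comp',
    h.s_comp, neg_add_cancel]

theorem grm_mk (h : RC s t) {i j : J} (hij : i ≤ j) (n : ℕ) (u : (Matrix (Fin n) (Fin n) (A i))ˣ) :
    grm' s j (K1.mk (unzU (mapR (Fin n) (s i j hij)) u)) = grm' s i (K1.mk u) := by
  rw [← K1.map_mk, grm_map h]

/-- The value on invertible matrices. -/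
noncomputable def val (h : RC s t) (n : ℕ) (M : (Matrix (Fin n) (Fin n) L)ˣ) : Grm A :=
  grm' s (h.unit_surj n M).choose (K1.mk (h.unit_surj n M).choose_spec.choose)

theorem val_eq (h : RC s t) (n : ℕ) (M : (Matrix (Fin n) (Fin n) L)ˣ) {i : J}
    (u : (Matrix (Fin n) (Fin n) (A i))ˣ) (e : unzU (mapR (Fin n) (t i)) u = M) :
    val h n M = grm' s i (K1.mk u) := by
  obtain ⟨k, h1, h2, e'⟩ := h.unit_inj n (h.unit_surj n M).choose_spec.choose u
    ((h.unit_surj n M).choose_spec.choose_spec.trans e.symm)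
  unfold val
  rw [← grm_mk h h1, e', grm_mk h h2]

/-- Continuity of `K₁`. -/
theorem RC.k1 (h : RC s t) {i : J} (x : K1 (A i)) (hx : K1.map (t i) x = 0) :
    ∃ j, ∃ hij : i ≤ j, K1.map (s i j hij) x = 0 := by
  let F : K1 L →+ Grm A := K1.lift (val h)
    (by
      intro n M N
      obtain ⟨i, u, hu⟩ := h.unit_surj n M
      obtain ⟨j, v, hv⟩ := h.unit_surj n N
      obtain ⟨k, h1, h2⟩ := bound2 i j
      have eu : unzU (mapR (Fin n) (t k)) (unzU (mapR (Fin n) (s i k h1)) u) = M := by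
        rw [← unzU_comp, ← mapR_comp, h.t_comp, hu]
      have ev : unzU (mapR (Fin n) (t k)) (unzU (mapR (Fin n) (s j k h2)) v) = N := by
        rw [← unzU_comp, ← mapR_comp, h.t_comp, hv]
      rw [val_eq h n M _ eu, val_eq h n N _ ev, val_eq h n (M * N) _
        (by rw [map_mul, eu, ev] : unzU (mapR (Fin n) (t k))
          (unzU (mapR (Fin n) (s i k h1)) u * unzU (mapR (Fin n) (s j k h2)) v) = M * N),
        K1.mk_mul, map_add])
    (by
      intro n m f M
      obtain ⟨i, u, hu⟩ := h.unit_surj n M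
      have e : unzU (mapR (Fin m) (t i)) (unzU (injR (A i) f) u) = unzU (injR L f) M := by
        rw [← unzU_comp, mapR_injR, unzU_comp, hu]
      rw [val_eq h m _ _ e, K1.mk_inj, val_eq h n M u hu])
  have key : ∀ x : K1 (A i), (F.comp (K1.map (t i))) x = grm' s i x :=
    K1.hom_ext fun n u => by
      rw [AddMonoidHom.comp_apply, K1.map_mk]
      change K1.lift _ _ _ (K1.mk _) = _
      rw [K1.lift_mk]
      exact val_eq h n _ u rfl
  apply grm_zero s x
  rw [← key x, AddMonoidHom.comp_apply, hx, map_zero]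

end

end Pool.Agent.N510.KC
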