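import Pool.Agent.N510.KC.K1Cont
import Pool.Agent.N506.HDc
import Pool.Agent.N506.Cl
import Pool.Agent.N506.CK
import Pool.Agent.R615.K1.PT

/-!
Continuity of the functor `G ↦ ℚ ⊗ K₁(R[G])`, `R` an arbitrary ring, along directed colimits of
groups.
-/

set_option autoImplicit false

namespace Pool.Agent.N510.KC

open Pool.Agent.Y477.IW Pool.Agent.N506 Pool.Agent.R615.K1 Pool.Agent.Y483 Pool.Agent.Y110.KW
  Pool.Agent.Y75.MQ Finsupp CategoryTheory
  TensorProduct

theorem gr_coeff (R : Type) [Ring R] {G K : Type} [Group G] [Group K] (f : G →* K)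
    (x : MonoidAlgebra R G) :
    (grm (NonUnitalRingHom.id R) f x).coeff = mapDomain f x.coeff := by
  induction x using MonoidAlgebra.induction_linear with
  | zero => rw [map_zero]; exact mapDomain_zero.symm
  | add x y hx hy =>
    rw [map_add]
    change (grm (NonUnitalRingHom.id R) f x).coeff + (grm (NonUnitalRingHom.id R) f y).coeff =
      mapDomain f (x.coeff + y.coeff)
    rw [hx, hy, mapDomain_add]
  | single g n =>
    rw [grm_single]
    exact mapDomain_single.symm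

section

variable {J : Type} [Preorder J] [IsDirected J (· ≤ ·)] [Nonempty J] {P : J → Type}
  [∀ i, Group (P i)] {G : Type} [Group G] {f : ∀ i j, i ≤ j → (P i →* P j)} {g : ∀ i, P i →* G}

/-- The group ring of a directed colimit. -/
theorem rc (R : Type) [Ring R] (h : DCG P f G g) :
    RC (A := fun i => MonoidAlgebra R (P i)) (L := MonoidAlgebra R G)
      (fun i j hij => grm (NonUnitalRingHom.id R) (f i j hij))
      (fun i => grm (NonUnitalRingHom.id R) (g i)) := by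
  have H := DC.finsupp h R
  have e : ∀ {K : Type} [Group K] {x y : MonoidAlgebra R K}, x.coeff = y.coeff → x = y := by
    intro K _ x y h
    cases x; cases y
    exact congrArg _ h
  refine ⟨⟨?_, ?_, ?_, ?_⟩, ?_, ?_⟩
  · intro i j k h1 h2 x
    apply e
    rw [gr_coeff, gr_coeff, gr_coeff]
    exact H.ss i j k h1 h2 x.coeff
  · intro i j h1 x
    apply e
    rw [gr_coeff, gr_coeff, gr_coeff]
    exact H.ts i j h1 x.coeff
  · intro y
    obtain ⟨i, x, hx⟩ := H.surj y.coeff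
    exact ⟨i, ⟨x⟩, e (by rw [gr_coeff]; exact hx)⟩
  · intro i x y hxy
    obtain ⟨j, hj, h1⟩ := H.inj i x.coeff y.coeff (by
      rw [← gr_coeff, ← gr_coeff]; exact congrArg MonoidAlgebra.coeff hxy)
    exact ⟨j, hj, e (by rw [gr_coeff, gr_coeff]; exact h1)⟩
  · intro i j hij
    rw [MonoidAlgebra.one_def, grm_single, map_one]
    rfl
  · intro i
    rw [MonoidAlgebra.one_def, grm_single, map_one]
    rfl

/-- Continuity of `K₁(R[-])`. -/
theorem kf_cont (R : Type) [Ring R] (h : DCG P f G g) {i : J} (x : KG R (P i))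
    (hx : kf R (g i) x = 0) : ∃ j, ∃ hij : i ≤ j, kf R (f i j hij) x = 0 :=
  (rc R h).k1 x hx

end

/-- A functor with values in abelian groups which is continuous along directed colimits of
groups. -/
def ContI (L : GrpCat.{0} ⥤ AddCommGrpCat.{0}) : Prop :=
  ∀ (J : Type) [Preorder J] [IsDirected J (· ≤ ·)] [Nonempty J] (P : J → Type)
    [∀ i, Group (P i)] (f : ∀ i j, i ≤ j → (P i →* P j)) (G : Type) [Group G]
    (g : ∀ i, P i →* G), DCG P f G g → ∀ (i : J) (x : L.obj (GrpCat.of (P i))),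
      (L.map (GrpCat.ofHom (g i))).hom x = 0 →
        ∃ j, ∃ hj : i ≤ j, (L.map (GrpCat.ofHom (f i j hj))).hom x = 0

theorem contI_kgr (R : Type) [Ring R] : ContI (kgr R) := by
  intro J _ _ _ P _ f G _ g h i x hx
  exact kf_cont R h x hx

theorem cont_rat {L : GrpCat.{0} ⥤ AddCommGrpCat.{0}} (hL : ContI L) : Cont (rat L) := by
  intro J _ _ _ P _ f G _ g h i x hx
  obtain ⟨n, z, hn, hz⟩ := exists_tmul (M := L.obj (GrpCat.of (P i))) x
  have hn' : ((n : ℚ)⁻¹) ≠ 0 := inv_ne_zero (Nat.cast_ne_zero.mpr hn)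
  have hx' : x = ((n : ℚ)⁻¹) • ((1 : ℚ) ⊗ₜ[ℤ] z) := by
    rw [hz, TensorProduct.smul_tmul', smul_eq_mul, mul_one]
  have e : ∀ {K : Type} [Group K] (φ : P i →* K), emap (rat L) φ x =
      ((n : ℚ)⁻¹) • ((1 : ℚ) ⊗ₜ[ℤ] (L.map (GrpCat.ofHom φ)).hom z) := by
    intro K _ φ
    have e1 : emap (rat L) φ x = ratMap (L.map (GrpCat.ofHom φ)).hom x := rfl
    rw [e1, hx', map_smul, ratMap_tmul]
  rw [e] at hx
  have h1 : (1 : ℚ) ⊗ₜ[ℤ] (L.map (GrpCat.ofHom (g i))).hom z = 0 :=
    (smul_eq_zero.mp hx).resolve_left hn'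
  obtain ⟨m, hm, h2⟩ := tors_of_tmul _ h1
  rw [← map_nsmul] at h2
  obtain ⟨j, hj, h3⟩ := hL J P f G g h i (m • z) h2
  refine ⟨j, hj, ?_⟩
  rw [e]
  rw [map_nsmul] at h3
  have h4 : (m : ℚ) • ((1 : ℚ) ⊗ₜ[ℤ] (L.map (GrpCat.ofHom (f i j hj))).hom z) = 0 := by
    rw [Nat.cast_smul_eq_nsmul ℚ, ← TensorProduct.tmul_smul, h3, TensorProduct.tmul_zero]
  rw [(smul_eq_zero.mp h4).resolve_left (Nat.cast_ne_zero.mpr hm), smul_zero]
  rfl

theorem cont_k1 (R : Type) [Ring R] : Cont (rat (kgr R)) := cont_rat (contI_kgr R)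

theorem hasPT_k1 (R : Type) [Ring R] : Pool.Agent.Y483.PW.HasPT (rat (kgr R)) :=
  hasPT_rat (hasPTI_kgr R)

end Pool.Agent.N510.KC
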